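import Mathlib

/-!
# Coverings of the residue classes by two progressions
-/

namespace Pool.Agent.Lib.MP_3a897b_coR

/-- Two progressions `0, -Y, …, -F Y` and `T, T + Y, …, T + F Y` that cover all classes. -/
theorem class_cover {Y δ F T : ℤ} (hcop : IsCoprime Y δ) (hδ : 1 ≤ δ)
    (H : ∀ z : ℤ, (∃ a, 0 ≤ a ∧ a ≤ F ∧ δ ∣ z + a * Y) ∨
      (∃ a, 0 ≤ a ∧ a ≤ F ∧ δ ∣ (T - z) + a * Y)) :
    δ ≤ 2 * F + 2 ∧ (δ = 2 * F + 2 → δ ∣ T - Y) ∧ (δ = 2 * F + 1 → δ ∣ T - Y ∨ δ ∣ T) := by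
  have hcancel : ∀ x : ℤ, δ ∣ x * Y → δ ∣ x := fun x hx => hcop.symm.dvd_of_dvd_mul_right hx
  have hF : 0 ≤ F := by
    rcases H 0 with ⟨a, h1, h2, -⟩ | ⟨a, h1, h2, -⟩ <;> omega
  rcases Int.lt_or_le (F + 1) δ with hlt | hle
  · have g1 : ∃ b, 0 ≤ b ∧ b ≤ F ∧ δ ∣ (T - Y) + b * Y := by
      rcases H Y with ⟨a, h1, h2, h3⟩ | h
      · exfalso
        have k1 : δ ∣ (1 + a) * Y := by
          have e : (1 + a) * Y = Y + a * Y := by ring
          rw [e]; exact h3
        have k2 := Int.le_of_dvd (by omega) (hcancel _ k1)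
        omega
      · exact h
    have g2 : ∃ b, 0 ≤ b ∧ b ≤ F ∧ δ ∣ (T + (F + 1) * Y) + b * Y := by
      rcases H (-((F + 1) * Y)) with ⟨a, h1, h2, h3⟩ | ⟨b, h1, h2, h3⟩
      · exfalso
        have k1 : δ ∣ (F + 1 - a) * Y := by
          have e : (F + 1 - a) * Y = -(-((F + 1) * Y) + a * Y) := by ring
          rw [e]; exact (dvd_neg).mpr h3
        have k2 := Int.le_of_dvd (by omega) (hcancel _ k1)
        omega
      · refine ⟨b, h1, h2, ?_⟩
        have e : (T + (F + 1) * Y) + b * Y = (T - -((F + 1) * Y)) + b * Y := by ring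
        rw [e]; exact h3
    obtain ⟨b, b1, b2, b3⟩ := g1
    obtain ⟨b', b1', b2', b3'⟩ := g2
    have k1 : δ ∣ (F + 2 + b' - b) * Y := by
      have e : (F + 2 + b' - b) * Y =
          ((T + (F + 1) * Y) + b' * Y) - ((T - Y) + b * Y) := by ring
      rw [e]; exact dvd_sub b3' b3
    have k2 := hcancel _ k1
    have k3 := Int.le_of_dvd (by omega) k2
    refine ⟨by omega, ?_, ?_⟩
    · intro h
      have hb : b = 0 := by omega
      subst hb
      simpa using b3
    · intro h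
      obtain ⟨c, hc⟩ := k2
      have hc1 : c = 1 := by
        have c1 : δ * 0 < δ * c := by rw [mul_zero, ← hc]; omega
        have c2 : δ * c < δ * 2 := by rw [← hc]; omega
        have c3 : 0 < c := lt_of_mul_lt_mul_left c1 (by omega)
        have c4 : c < 2 := lt_of_mul_lt_mul_left c2 (by omega)
        omega
      rw [hc1, mul_one] at hc
      have hb : b = 0 ∨ b = 1 := by omega
      rcases hb with rfl | rfl
      · left; simpa using b3
      · right
        have e : T = (T - Y) + 1 * Y := by ring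
        rw [e]; exact b3
  · refine ⟨by omega, fun h => by omega, fun h => ?_⟩
    have h1 : δ = 1 := by omega
    left; rw [h1]; exact one_dvd _

/-- Every class has a representative in `[1, δ]`. -/
theorem exists_rep {δ : ℤ} (hδ : 1 ≤ δ) (b z : ℤ) : ∃ κ : ℤ, b + 1 ≤ κ ∧ κ ≤ b + δ ∧ δ ∣ κ - z := by
  have hδ0 : 0 < δ := by omega
  have h1 := Int.emod_nonneg (z - 1 - b) hδ0.ne'
  have h2 := Int.emod_lt_of_pos (z - 1 - b) hδ0
  have h3 : δ ∣ (z - 1 - b) - (z - 1 - b) % δ := Int.dvd_self_sub_emod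
  refine ⟨(z - 1 - b) % δ + 1 + b, by omega, by omega, ?_⟩
  have e : (z - 1 - b) % δ + 1 + b - z = -((z - 1 - b) - (z - 1 - b) % δ) := by ring
  rw [e]; exact (dvd_neg).mpr h3

/-- An odd multiple. -/
theorem odd_cancel {Y δ x : ℤ} (hcop : IsCoprime Y δ) (h : δ ∣ x * Y) : δ ∣ x :=
  hcop.symm.dvd_of_dvd_mul_right h

end Pool.Agent.Lib.MP_3a897b_coR
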