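import Pool.Agent.Lib.MP_3a897b_coR.Cls

/-!
# The case of a negative least step
-/

namespace Pool.Agent.Lib.MP_3a897b_coR

/-- The negative case. -/
theorem neg_case {n m τ p d S C Y N : ℤ}
    (hm3 : 3 ≤ m) (hmodd : m % 2 = 1) (hτ : 0 ≤ τ) (hnm : m + 4 * τ ≤ n)
    (hN : N = m + 2 * τ - 1) (hp : 1 ≤ p) (hd0 : 1 ≤ d) (hd : d ≤ N - 1)
    (hS : S = p - d - 4 * C) (hnS : n * S = m * (p - d) + 4 * (p * τ))
    (hpN : p = 1 ∨ p * N ≤ n - d) (hpar : ¬ (p % 2 = 0 ∧ d % 2 = 0))
    (hcop : IsCoprime Y d) (hY : d ∣ S * Y - (m + 4 * τ))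
    (cov : ∀ κ, 1 ≤ κ → κ ≤ N →
      (∃ a, 1 ≤ a ∧ 2 * (n * a) ≤ n * (d + S) + p * (2 * κ - m - 4 * τ) ∧ d ∣ κ - a * Y) ∨
      (∃ a, 1 ≤ a ∧ 2 * (n * a) ≤ n * (d + S) + p * (2 * (N + 1 - κ) - m - 4 * τ) ∧
        d ∣ (N + 1 - κ) - a * Y)) :
    S = 1 ∧ d ∣ N + 1 - Y ∧ p * N ≤ n - d ∧
      ((d % 2 = 0 ∧ m ≤ p) ∨ (d % 2 = 1 ∧ τ = 0)) := by
  have hn0 : 0 < n := by omega
  have hpm : 0 < p * m := mul_pos (by omega) (by omega)
  have hmd : 0 < m * d := mul_pos (by omega) (by omega)
  have hpτ : 0 ≤ p * τ := mul_nonneg (by omega) hτ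
  have hE : p * (m - 2) < n := by
    rcases hpN with h | h
    · rw [h]; omega
    · have h1 : p * N = p * (m + 2 * τ - 1) := by rw [hN]
      have h2 : p * (m + 2 * τ - 1) = p * (m - 2) + 2 * (p * τ) + p := by ring
      omega
  have hab : ∀ κ a : ℤ, κ ≤ N → 2 * (n * a) ≤ n * (d + S) + p * (2 * κ - m - 4 * τ) →
      2 * a ≤ d + S := by
    intro κ a hκ ha
    have h1 : p * (2 * κ - m - 4 * τ) ≤ p * (m - 2) :=
      mul_le_mul_of_nonneg_left (by omega) (by omega)
    have h2 : n * (2 * a) < n * (d + S + 1) := by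
      have e1 : n * (2 * a) = 2 * (n * a) := by ring
      have e2 : n * (d + S + 1) = n * (d + S) + n := by ring
      omega
    have h3 : 2 * a < d + S + 1 := lt_of_mul_lt_mul_left h2 hn0.le
    omega
  have hS1 : S ≤ 1 := by
    by_contra hcon
    have h1 : n * 2 ≤ n * S := mul_le_mul_of_nonneg_left (by omega) hn0.le
    rcases hpN with h | h
    · rw [h] at hnS
      nlinarith
    · have h2 : p * N = p * (m + 2 * τ - 1) := by rw [hN]
      have h3 : 0 < p * (m - 2) := mul_pos (by omega) (by omega)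
      nlinarith
  -- the covering of the classes
  have hcl : ∀ z : ℤ, (∃ a, 0 ≤ a ∧ a ≤ (d + S) / 2 - 1 ∧ d ∣ z + a * (-Y)) ∨
      (∃ a, 0 ≤ a ∧ a ≤ (d + S) / 2 - 1 ∧ d ∣ ((N + 1 - 2 * Y) - z) + a * (-Y)) := by
    intro z
    obtain ⟨κ, k1, k2, k3⟩ := exists_rep hd0 0 (z + Y)
    rcases cov κ (by omega) (by omega) with ⟨a, a0, a1, a2⟩ | ⟨a, a0, a1, a2⟩
    · have h1 := hab κ a (by omega) a1
      refine Or.inl ⟨a - 1, by omega, by omega, ?_⟩
      have e : z + (a - 1) * (-Y) = (κ - a * Y) - (κ - (z + Y)) := by ring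
      rw [e]; exact dvd_sub a2 k3
    · have h1 := hab (N + 1 - κ) a (by omega) a1
      refine Or.inr ⟨a - 1, by omega, by omega, ?_⟩
      have e : ((N + 1 - 2 * Y) - z) + (a - 1) * (-Y) =
          ((N + 1 - κ) - a * Y) + (κ - (z + Y)) := by ring
      rw [e]; exact dvd_add a2 k3
  obtain ⟨c1, c2, c3⟩ := class_cover (hcop.neg_left) hd0 hcl
  have e0 : N + 1 - 2 * Y - -Y = N + 1 - Y := by ring
  rw [e0] at c2 c3
  have hSne : S ≠ 0 := by
    intro h0
    have h1 : (p - d) % 2 = 0 := by omega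
    have h2 : d % 2 = 1 := by
      rcases Int.emod_two_eq_zero_or_one d with h | h
      · exact absurd ⟨by omega, h⟩ hpar
      · exact h
    omega
  have hS' : S = 1 := by omega
  subst hS'
  rw [one_mul] at hY
  have hpN' : p * N ≤ n - d := by
    rcases hpN with h | h
    · exfalso
      rw [h] at hnS
      have h1 : m * (1 - d) ≤ 0 := mul_nonpos_of_nonneg_of_nonpos (by omega) (by omega)
      omega
    · exact h
  refine ⟨rfl, ?_⟩
  rcases Int.emod_two_eq_zero_or_one d with hde | hdo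
  · -- `d` even
    have hTY : d ∣ N + 1 - Y := c2 (by omega)
    refine ⟨hTY, hpN', Or.inl ⟨hde, ?_⟩⟩
    obtain ⟨l, hl⟩ : ∃ l : ℤ, d = 2 * l := ⟨d / 2, by omega⟩
    have hYodd : Y % 2 = 1 := by
      rcases Int.emod_two_eq_zero_or_one Y with h | h
      · exfalso
        have h1 : (2 : ℤ) ∣ Y := Int.dvd_of_emod_eq_zero h
        have h2 : (2 : ℤ) ∣ d := Int.dvd_of_emod_eq_zero hde
        have h3 : IsUnit (2 : ℤ) := hcop.isUnit_of_dvd' h1 h2
        rw [Int.isUnit_iff] at h3
        omega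
      · exact h
    obtain ⟨w, hw⟩ : ∃ w : ℤ, Y = 2 * w + 1 := ⟨Y / 2, by omega⟩
    have hlY : d ∣ l * (Y - 1) := ⟨w, by rw [hl, hw]; ring⟩
    rcases cov l (by omega) (by omega) with ⟨a, a0, a1, a2⟩ | ⟨a, a0, a1, a2⟩
    · have h1 := hab l a (by omega) a1
      have h2 : d ∣ (l - a) * Y := by
        have e : (l - a) * Y = (l - a * Y) + l * (Y - 1) := by ring
        rw [e]; exact dvd_add a2 hlY
      have h3 := odd_cancel hcop h2
      have h4 : a = l := by
        by_contra hne
        have := Int.le_of_dvd (by omega) h3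
        omega
      subst h4
      have e1 : 2 * (n * a) = n * d := by rw [hl]; ring
      rw [e1] at a1
      have h5 : d * m ≤ d * p := by nlinarith
      exact le_of_mul_le_mul_left h5 (by omega)
    · exfalso
      have h1 := hab (N + 1 - l) a (by omega) a1
      have h2 : d ∣ (l - 1 + a) * Y := by
        have e : (l - 1 + a) * Y = (N + 1 - Y) - ((N + 1 - l) - a * Y) + l * (Y - 1) := by ring
        rw [e]; exact dvd_add (dvd_sub hTY a2) hlY
      have h3 := Int.le_of_dvd (by omega) (odd_cancel hcop h2)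
      omega
  · -- `d` odd
    rcases em (d ∣ N + 1 - Y) with hTY | hTY
    · refine ⟨hTY, hpN', Or.inr ⟨hdo, ?_⟩⟩
      have hdτ : d ∣ τ := by
        have h1 : d ∣ 2 * τ := by
          have e : 2 * τ = -((N + 1 - Y) + (Y - (m + 4 * τ))) := by rw [hN]; ring
          rw [e]; exact (dvd_neg).mpr (dvd_add hTY hY)
        have h2 : IsCoprime d 2 := ⟨1, -(d / 2), by omega⟩
        exact h2.dvd_of_dvd_mul_left h1
      by_contra hne
      have hdτ' := Int.le_of_dvd (by omega) hdτ
      have hYm : d ∣ Y - m := by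
        have e : Y - m = (Y - (m + 4 * τ)) + 4 * τ := by ring
        rw [e]; exact dvd_add hY (Dvd.dvd.mul_left hdτ _)
      obtain ⟨κ, hκ⟩ : ∃ κ : ℤ, 2 * κ = m + d := ⟨(m + d) / 2, by omega⟩
      rcases cov κ (by omega) (by omega) with ⟨a, a0, a1, a2⟩ | ⟨a, a0, a1, a2⟩
      · have h1 := hab κ a (by omega) a1
        have h2 : d ∣ (2 * a - 1) * Y := by
          have e : (2 * a - 1) * Y = d - 2 * (κ - a * Y) - (Y - m) := by
            linear_combination hκ
          rw [e]; exact dvd_sub (dvd_sub dvd_rfl (Dvd.dvd.mul_left a2 _)) hYm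
        have h3 := Int.le_of_dvd (by omega) (odd_cancel hcop h2)
        have h4 : 2 * a = d + 1 := by omega
        have e1 : 2 * (n * a) = n * (d + 1) := by rw [← h4]; ring
        have e2 : 2 * κ - m - 4 * τ = d - 4 * τ := by omega
        rw [e1, e2] at a1
        have h5 : 0 < p * (4 * τ - d) := mul_pos (by omega) (by omega)
        have e3 : p * (d - 4 * τ) = -(p * (4 * τ - d)) := by ring
        omega
      · have h1 := hab (N + 1 - κ) a (by omega) a1
        have h2 : d ∣ (2 * a - 1) * Y := by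
          have e : (2 * a - 1) * Y = 2 * (N + 1 - Y) + (Y - m) -
              2 * ((N + 1 - κ) - a * Y) - d := by
            linear_combination (-1 : ℤ) * hκ
          rw [e]
          exact dvd_sub (dvd_sub (dvd_add (Dvd.dvd.mul_left hTY _) hYm)
            (Dvd.dvd.mul_left a2 _)) dvd_rfl
        have h3 := Int.le_of_dvd (by omega) (odd_cancel hcop h2)
        have h4 : 2 * a = d + 1 := by omega
        have e1 : 2 * (n * a) = n * (d + 1) := by rw [← h4]; ring
        have e2 : 2 * (N + 1 - κ) - m - 4 * τ = -d := by omega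
        rw [e1, e2] at a1
        have h5 : 0 < p * d := mul_pos (by omega) (by omega)
        have e3 : p * -d = -(p * d) := by ring
        omega
    · exfalso
      have hT : d ∣ N + 1 - 2 * Y := (c3 (by omega)).resolve_left hTY
      have hd1 : d ≠ 1 := by
        rintro rfl
        exact hTY (one_dvd _)
      have hmτ : d ∣ m + 6 * τ := by
        have e : m + 6 * τ = -((N + 1 - 2 * Y) + 2 * (Y - (m + 4 * τ))) := by rw [hN]; ring
        rw [e]; exact (dvd_neg).mpr (dvd_add hT (Dvd.dvd.mul_left hY _))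
      obtain ⟨u, hu⟩ := hmτ
      have hu3 : 3 ≤ u := by
        have hu2 : 2 ≤ u := by
          by_contra hcon
          have h1 : d * u ≤ d * 1 := mul_le_mul_of_nonneg_left (by omega) (by omega)
          omega
        have hodd : u ≠ 2 := by
          rintro rfl
          omega
        omega
      have hd3 : d * 3 ≤ d * u := mul_le_mul_of_nonneg_left hu3 (by omega)
      have hYτ : d ∣ Y + 2 * τ := by
        have e : Y + 2 * τ = (Y - (m + 4 * τ)) + d * u := by rw [← hu]; ring
        rw [e]; exact dvd_add hY (Dvd.intro _ rfl)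
      obtain ⟨κ, k1, k2, k3⟩ := exists_rep hd0 0 (-τ)
      rcases cov κ (by omega) (by omega) with ⟨a, a0, a1, a2⟩ | ⟨a, a0, a1, a2⟩
      · have h1 := hab κ a (by omega) a1
        have h2 : d ∣ (2 * a - 1) * Y := by
          have e : (2 * a - 1) * Y = 2 * (κ - -τ) - 2 * (κ - a * Y) - (Y + 2 * τ) := by ring
          rw [e]
          exact dvd_sub (dvd_sub (Dvd.dvd.mul_left k3 _) (Dvd.dvd.mul_left a2 _)) hYτ
        have h3 := Int.le_of_dvd (by omega) (odd_cancel hcop h2)
        have h4 : 2 * a = d + 1 := by omega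
        have e1 : 2 * (n * a) = n * (d + 1) := by rw [← h4]; ring
        rw [e1] at a1
        have h5 : 0 ≤ p * (2 * κ - m - 4 * τ) := by omega
        have h6 : 0 ≤ 2 * κ - m - 4 * τ := by
          by_contra hcon
          have : p * (2 * κ - m - 4 * τ) < 0 := mul_neg_of_pos_of_neg (by omega) (by omega)
          omega
        omega
      · have h1 := hab (N + 1 - κ) a (by omega) a1
        have h2 : d ∣ (2 * a - 3) * Y := by
          have e : (2 * a - 3) * Y = 2 * (N + 1 - 2 * Y) + (Y + 2 * τ) -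
              2 * ((N + 1 - κ) - a * Y) - 2 * (κ - -τ) := by ring
          rw [e]
          exact dvd_sub (dvd_sub (dvd_add (Dvd.dvd.mul_left hT _) hYτ) (Dvd.dvd.mul_left a2 _))
            (Dvd.dvd.mul_left k3 _)
        have h3 := odd_cancel hcop h2
        rcases Int.lt_or_le 1 a with h4 | h4
        · have := Int.le_of_dvd (by omega) h3
          omega
        · have h5 : a = 1 := by omega
          rw [h5] at h3
          have h6 : d ∣ 1 := by
            have e : (1 : ℤ) = -(2 * 1 - 3) := by ring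
            rw [e]; exact (dvd_neg).mpr h3
          have := Int.le_of_dvd one_pos h6
          omega

end Pool.Agent.Lib.MP_3a897b_coR
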