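import Pool.Agent.Lib.MP_3a897b_coR.Cls

/-!
# The case of a positive least step
-/

namespace Pool.Agent.Lib.MP_3a897b_coR

/-- The positive case. -/
theorem pos_case {n m τ p δ S C s Y N : ℤ}
    (hm3 : 3 ≤ m) (hmodd : m % 2 = 1) (hτ : 0 ≤ τ) (hnm : m + 4 * τ ≤ n)
    (hN : N = m + 2 * τ - 1) (hp : 1 ≤ p) (hδ0 : 1 ≤ δ) (hδ : δ ≤ N - 1)
    (hS : S = p + δ - 4 * C) (hnS : n * S = m * (p + δ) + 4 * (p * τ))
    (hpN : p = 1 ∨ p * N ≤ n - δ) (hpar : ¬ (p % 2 = 0 ∧ δ % 2 = 0))
    (hcop : IsCoprime Y δ) (hcop' : IsCoprime s p)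
    (hY : δ ∣ S * Y - (m + 4 * τ)) (hs : p ∣ S * s + m)
    (cov : ∀ κ, 1 ≤ κ → κ ≤ N →
      (∃ a, 0 ≤ a ∧ 2 * (n * a) ≤ n * (δ - S) + p * (m + 4 * τ - 2 * κ) ∧ δ ∣ κ + a * Y) ∨
      (∃ a, 0 ≤ a ∧ 2 * (n * a) ≤ n * (δ - S) + p * (m + 4 * τ - 2 * (N + 1 - κ)) ∧
        δ ∣ (N + 1 - κ) + a * Y)) :
    S = 1 ∧ (δ ∣ N + 1 - Y ∨ (p % 2 = 0 ∧ δ ∣ N + 1 ∧ m ≤ δ)) := by
  have hn0 : 0 < n := by omega
  have hpm : 0 < p * m := mul_pos (by omega) (by omega)
  have hmd : 0 < m * δ := mul_pos (by omega) (by omega)
  have hpτ : 0 ≤ p * τ := mul_nonneg (by omega) hτ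
  have hS1 : 1 ≤ S := by
    by_contra hcon
    have h1 : n * S ≤ 0 := mul_nonpos_of_nonneg_of_nonpos hn0.le (by omega)
    have h2 : 0 < m * (p + δ) := mul_pos (by omega) (by omega)
    omega
  have hE : p * (m + 4 * τ - 2) < 2 * n := by
    rcases hpN with h | h
    · rw [h]; omega
    · have h1 : p * N = p * (m + 2 * τ - 1) := by rw [hN]
      have h2 : 2 * (p * (m + 2 * τ - 1)) = p * (m + 4 * τ - 2) + p * m := by ring
      omega
  have hab : ∀ κ a : ℤ, 1 ≤ κ → 2 * (n * a) ≤ n * (δ - S) + p * (m + 4 * τ - 2 * κ) →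
      2 * a ≤ δ - S + 1 := by
    intro κ a hκ ha
    have h1 : p * (m + 4 * τ - 2 * κ) ≤ p * (m + 4 * τ - 2) :=
      mul_le_mul_of_nonneg_left (by omega) (by omega)
    have h2 : n * (2 * a) < n * (δ - S + 2) := by
      have e1 : n * (2 * a) = 2 * (n * a) := by ring
      have e2 : n * (δ - S + 2) = n * (δ - S) + 2 * n := by ring
      omega
    have h3 : 2 * a < δ - S + 2 := lt_of_mul_lt_mul_left h2 hn0.le
    omega
  have hcl : ∀ F : ℤ, (∀ κ a : ℤ, 1 ≤ κ → κ ≤ N → 0 ≤ a →
      2 * (n * a) ≤ n * (δ - S) + p * (m + 4 * τ - 2 * κ) → a ≤ F) →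
      ∀ z : ℤ, (∃ a, 0 ≤ a ∧ a ≤ F ∧ δ ∣ z + a * Y) ∨
        (∃ a, 0 ≤ a ∧ a ≤ F ∧ δ ∣ (N + 1 - z) + a * Y) := by
    intro F hF z
    obtain ⟨κ, k1, k2, k3⟩ := exists_rep hδ0 0 z
    rcases cov κ (by omega) (by omega) with ⟨a, a0, a1, a2⟩ | ⟨a, a0, a1, a2⟩
    · refine Or.inl ⟨a, a0, hF κ a (by omega) (by omega) a0 a1, ?_⟩
      have e : z + a * Y = (κ + a * Y) - (κ - z) := by ring
      rw [e]; exact dvd_sub a2 k3
    · refine Or.inr ⟨a, a0, hF (N + 1 - κ) a (by omega) (by omega) a0 a1, ?_⟩
      have e : (N + 1 - z) + a * Y = ((N + 1 - κ) + a * Y) + (κ - z) := by ring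
      rw [e]; exact dvd_add a2 k3
  obtain ⟨c1, c2, c3⟩ := class_cover hcop hδ0 (hcl ((δ - S + 1) / 2) (by
    intro κ a h1 _ _ h2
    have := hab κ a h1 h2
    omega))
  rcases Int.emod_two_eq_zero_or_one p with hpe | hpo
  · -- `p` even
    have hδo : δ % 2 = 1 := by
      rcases Int.emod_two_eq_zero_or_one δ with h | h
      · exact absurd ⟨hpe, h⟩ hpar
      · exact h
    have hS' : S = 1 := by omega
    subst hS'
    refine ⟨rfl, ?_⟩
    rcases em (δ ∣ N + 1 - Y) with hTY | hTY
    · exact Or.inl hTY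
    right
    have hT : δ ∣ N + 1 := (c3 (by omega)).resolve_left hTY
    have hδ1 : δ ≠ 1 := by
      rintro rfl
      exact hTY (one_dvd _)
    refine ⟨hpe, hT, ?_⟩
    by_contra hcon
    obtain ⟨κ, hκ⟩ : ∃ κ : ℤ, 2 * κ = 4 * τ + m + δ := ⟨(4 * τ + m + δ) / 2, by omega⟩
    rw [one_mul] at hY
    rcases cov κ (by omega) (by omega) with ⟨a, a0, a1, a2⟩ | ⟨a, a0, a1, a2⟩
    · have h1 := hab κ a (by omega) a1
      have h2 : δ ∣ (2 * a + 1) * Y := by
        have e : (2 * a + 1) * Y = 2 * (κ + a * Y) - δ + (Y - (m + 4 * τ)) := by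
          linear_combination (-1 : ℤ) * hκ
        rw [e]; exact dvd_add (dvd_sub (Dvd.dvd.mul_left a2 _) dvd_rfl) hY
      have h3 := Int.le_of_dvd (by omega) (odd_cancel hcop h2)
      have h4 : 2 * a = δ - 1 := by omega
      have e1 : 2 * (n * a) = n * (δ - 1) := by rw [← h4]; ring
      have e2 : m + 4 * τ - 2 * κ = -δ := by omega
      rw [e1, e2] at a1
      have h5 : 0 < p * δ := mul_pos (by omega) (by omega)
      have e3 : p * -δ = -(p * δ) := by ring
      omega
    · have h1 := hab (N + 1 - κ) a (by omega) a1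
      have h2 : δ ∣ (2 * a - 1) * Y := by
        have e : (2 * a - 1) * Y = 2 * ((N + 1 - κ) + a * Y) - 2 * (N + 1) + δ -
            (Y - (m + 4 * τ)) := by
          linear_combination hκ
        rw [e]
        exact dvd_sub (dvd_add (dvd_sub (Dvd.dvd.mul_left a2 _) (Dvd.dvd.mul_left hT _)) dvd_rfl)
          hY
      have h3 := odd_cancel hcop h2
      rcases Int.lt_or_le 0 a with h4 | h4
      · have := Int.le_of_dvd (by omega) h3
        omega
      · have h5 : a = 0 := by omega
        rw [h5] at h3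
        have h6 : δ ∣ 1 := by
          have e : (1 : ℤ) = -(2 * 0 - 1) := by ring
          rw [e]; exact (dvd_neg).mpr h3
        have := Int.le_of_dvd one_pos h6
        omega
  · -- `p` odd
    rcases Int.emod_two_eq_zero_or_one δ with hδe | hδo
    · -- `δ` even
      have hS13 : S = 1 ∨ S = 3 := by omega
      rcases hS13 with hS' | hS'
      · subst hS'
        refine ⟨rfl, Or.inl ?_⟩
        obtain ⟨-, d2, -⟩ := class_cover hcop hδ0 (hcl (δ / 2 - 1) (by
          intro κ a h1 _ _ h2
          have h3 : n * (2 * a) < n * δ := by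
            have h4 : 0 < p * κ := mul_pos (by omega) (by omega)
            nlinarith
          have h5 : 2 * a < δ := lt_of_mul_lt_mul_left h3 hn0.le
          omega))
        exact d2 (by omega)
      · exfalso
        subst hS'
        have hTY := c2 (by omega)
        obtain ⟨l, hl⟩ : ∃ l : ℤ, δ = 2 * l := ⟨δ / 2, by omega⟩
        have hYodd : Y % 2 = 1 := by
          rcases Int.emod_two_eq_zero_or_one Y with h | h
          · exfalso
            have h1 : (2 : ℤ) ∣ Y := Int.dvd_of_emod_eq_zero h
            have h2 : (2 : ℤ) ∣ δ := Int.dvd_of_emod_eq_zero hδe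
            have h3 : IsUnit (2 : ℤ) := hcop.isUnit_of_dvd' h1 h2
            rw [Int.isUnit_iff] at h3
            omega
          · exact h
        obtain ⟨w, hw⟩ : ∃ w : ℤ, Y = 2 * w + 1 := ⟨Y / 2, by omega⟩
        have hlY : δ ∣ l * (Y - 1) := ⟨w, by rw [hl, hw]; ring⟩
        have hu : δ ∣ 2 * m + 2 * τ := by
          have e : 2 * m + 2 * τ = 3 * (N + 1 - Y) + (3 * Y - (m + 4 * τ)) := by
            rw [hN]; ring
          rw [e]; exact dvd_add (Dvd.dvd.mul_left hTY _) hY
        obtain ⟨u, hu⟩ := hu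
        have hu1 : 2 ≤ u := by
          by_contra hcon
          have h1 : δ * u ≤ δ * 1 := mul_le_mul_of_nonneg_left (by omega) (by omega)
          omega
        rcases cov (N + 1 - l) (by omega) (by omega) with ⟨a, a0, a1, a2⟩ | ⟨a, a0, a1, a2⟩
        · have h1 := hab (N + 1 - l) a (by omega) a1
          have h2 : δ ∣ (a + 1 - l) * Y := by
            have e : (a + 1 - l) * Y = ((N + 1 - l) + a * Y) - (N + 1 - Y) - l * (Y - 1) := by
              ring
            rw [e]; exact dvd_sub (dvd_sub a2 hTY) hlY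
          have h3 := odd_cancel hcop h2
          have h4 : a = l - 1 := by
            by_contra hne
            have h5 : δ ∣ l - 1 - a := by
              have e : l - 1 - a = -(a + 1 - l) := by ring
              rw [e]; exact (dvd_neg).mpr h3
            have := Int.le_of_dvd (by omega) h5
            omega
          subst h4
          have e1 : m + 4 * τ - 2 * (N + 1 - l) = δ - m := by omega
          rw [e1] at a1
          have e2 : 2 * (n * (l - 1)) = n * (δ - 2) := by rw [hl]; ring
          rw [e2] at a1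
          have h6 : n ≤ p * (δ - m) := by
            have e3 : n * (δ - 2) = n * (δ - 3) + n := by ring
            omega
          have h7 : δ * (2 * (p * u) + m) ≤ δ * (3 * p) := by
            have e4 : δ * (2 * (p * u)) = 4 * (p * m) + 4 * (p * τ) := by
              have : δ * (2 * (p * u)) = 2 * p * (δ * u) := by ring
              rw [this, ← hu]; ring
            nlinarith
          have h8 : 2 * (p * u) + m ≤ 3 * p := le_of_mul_le_mul_left h7 (by omega)
          have h9 : p * 2 ≤ p * u := mul_le_mul_of_nonneg_left hu1 (by omega)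
          omega
        · have h1 := hab (N + 1 - (N + 1 - l)) a (by omega) a1
          have h2 : δ ∣ (l + a) * Y := by
            have e : (l + a) * Y = ((N + 1 - (N + 1 - l)) + a * Y) + l * (Y - 1) := by ring
            rw [e]; exact dvd_add a2 hlY
          have h3 := Int.le_of_dvd (by omega) (odd_cancel hcop h2)
          omega
    · -- `δ` odd
      exfalso
      have hS' : S = 2 := by omega
      subst hS'
      have hpδ : p ≤ δ := by
        rcases hpN with h | h
        · omega
        · have h1 : p * N = p * (m + 2 * τ - 1) := by rw [hN]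
          have h2 : (m - 2) * p ≤ (m - 2) * δ := by nlinarith
          exact le_of_mul_le_mul_left h2 (by omega)
      have hlast : ∀ κ a : ℤ, 2 * a = δ - 1 →
          2 * (n * a) ≤ n * (δ - 2) + p * (m + 4 * τ - 2 * κ) →
          4 * (p * (κ - τ)) ≤ m * (p - δ) := by
        intro κ a ha h1
        have e1 : 2 * (n * a) = n * (δ - 1) := by rw [← ha]; ring
        rw [e1] at h1
        nlinarith
      have hlast' : ∀ κ a : ℤ, 2 * a = δ - 1 →
          2 * (n * a) ≤ n * (δ - 2) + p * (m + 4 * τ - 2 * κ) → κ ≤ τ := by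
        intro κ a ha h1
        have h2 := hlast κ a ha h1
        have h3 : m * (p - δ) ≤ 0 := mul_nonpos_of_nonneg_of_nonpos (by omega) (by omega)
        by_contra hcon
        have h4 : 0 < p * (κ - τ) := mul_pos (by omega) (by omega)
        omega
      rcases em (δ ∣ N + 1 - Y) with hTY | hTY
      · -- `T ≡ Y`
        have hδm : δ ∣ m := by
          have e : m = 2 * (N + 1 - Y) + (2 * Y - (m + 4 * τ)) := by rw [hN]; ring
          rw [e]; exact dvd_add (Dvd.dvd.mul_left hTY _) hY
        have hδm' := Int.le_of_dvd (by omega) hδm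
        have hY2 : δ ∣ Y - 2 * τ := by
          have e : Y - 2 * τ = m - (N + 1 - Y) := by rw [hN]; ring
          rw [e]; exact dvd_sub hδm hTY
        rcases cov (τ + δ) (by omega) (by omega) with ⟨a, a0, a1, a2⟩ | ⟨a, a0, a1, a2⟩
        · have h1 := hab (τ + δ) a (by omega) a1
          have h2 : δ ∣ (2 * a + 1) * Y := by
            have e : (2 * a + 1) * Y = 2 * ((τ + δ) + a * Y) + (Y - 2 * τ) - δ * 2 := by ring
            rw [e]
            exact dvd_sub (dvd_add (Dvd.dvd.mul_left a2 _) hY2) (Dvd.intro _ rfl)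
          have h3 := Int.le_of_dvd (by omega) (odd_cancel hcop h2)
          have := hlast' _ a (by omega) a1
          omega
        · have h1 := hab (N + 1 - (τ + δ)) a (by omega) a1
          have h2 : δ ∣ (2 * a + 1) * Y := by
            have e : (2 * a + 1) * Y = 2 * ((N + 1 - (τ + δ)) + a * Y) - 2 * (N + 1 - Y) -
                (Y - 2 * τ) + δ * 2 := by ring
            rw [e]
            exact dvd_add (dvd_sub (dvd_sub (Dvd.dvd.mul_left a2 _) (Dvd.dvd.mul_left hTY _)) hY2)
              (Dvd.intro _ rfl)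
          have h3 := Int.le_of_dvd (by omega) (odd_cancel hcop h2)
          have h4 := hlast' _ a (by omega) a1
          have h5 := hlast _ a (by omega) a1
          have h6 : δ = m := by omega
          have h7 : N + 1 - (τ + δ) - τ = 0 := by omega
          rw [h7, mul_zero, mul_zero] at h5
          have h8 : p = δ := by
            by_contra hne
            have h9 : 0 < m * (δ - p) := mul_pos (by omega) (by omega)
            have e : m * (p - δ) = -(m * (δ - p)) := by ring
            omega
          have h9 : p = m := by omega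
          rw [h9] at hs hcop'
          have h10 : m ∣ 2 * s := by
            have e : 2 * s = (2 * s + m) - m := by ring
            rw [e]; exact dvd_sub hs dvd_rfl
          have h11 : IsCoprime m 2 := ⟨1, -(m / 2), by omega⟩
          have h12 : m ∣ s := h11.dvd_of_dvd_mul_left h10
          have h13 : IsUnit m := hcop'.isUnit_of_dvd' h12 dvd_rfl
          rw [Int.isUnit_iff] at h13
          omega
      · -- `T ≡ 0`
        have hT : δ ∣ N + 1 := (c3 (by omega)).resolve_left hTY
        have hδ1 : δ ≠ 1 := by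
          rintro rfl
          exact hTY (one_dvd _)
        have hYτ : δ ∣ Y - τ := by
          have h1 : δ ∣ 2 * (Y - τ) := by
            have e : 2 * (Y - τ) = (2 * Y - (m + 4 * τ)) + (N + 1) := by rw [hN]; ring
            rw [e]; exact dvd_add hY hT
          have h2 : IsCoprime δ 2 := ⟨1, -(δ / 2), by omega⟩
          exact h2.dvd_of_dvd_mul_left h1
        obtain ⟨u, hu⟩ := hT
        have hu2 : 2 ≤ u := by
          by_contra hcon
          have h1 : δ * u ≤ δ * 1 := mul_le_mul_of_nonneg_left (by omega) (by omega)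
          omega
        have hδτ : δ ≤ τ + m - 1 := by
          by_contra hcon
          have h1 : δ * 2 ≤ δ * u := mul_le_mul_of_nonneg_left hu2 (by omega)
          omega
        obtain ⟨κ, k1, k2, k3⟩ := exists_rep hδ0 τ (τ * ((δ + 1) / 2))
        have k4 : δ ∣ 2 * κ - τ := by
          have e : 2 * κ - τ = 2 * (κ - τ * ((δ + 1) / 2)) + δ * τ := by
            have h1 : 2 * ((δ + 1) / 2) = δ + 1 := by omega
            linear_combination τ * h1
          rw [e]; exact dvd_add (Dvd.dvd.mul_left k3 _) (Dvd.intro _ rfl)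
        rcases cov κ (by omega) (by omega) with ⟨a, a0, a1, a2⟩ | ⟨a, a0, a1, a2⟩
        · have h1 := hab κ a (by omega) a1
          have h2 : δ ∣ (2 * a + 1) * Y := by
            have e : (2 * a + 1) * Y = 2 * (κ + a * Y) - (2 * κ - τ) + (Y - τ) := by ring
            rw [e]; exact dvd_add (dvd_sub (Dvd.dvd.mul_left a2 _) k4) hYτ
          have h3 := Int.le_of_dvd (by omega) (odd_cancel hcop h2)
          have := hlast' _ a (by omega) a1
          omega
        · have h1 := hab (N + 1 - κ) a (by omega) a1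
          have h2 : δ ∣ (2 * a - 1) * Y := by
            have e : (2 * a - 1) * Y = 2 * ((N + 1 - κ) + a * Y) + (2 * κ - τ) - (Y - τ) -
                δ * (2 * u) := by
              linear_combination (-2 : ℤ) * hu
            rw [e]
            exact dvd_sub (dvd_sub (dvd_add (Dvd.dvd.mul_left a2 _) k4) hYτ) (Dvd.intro _ rfl)
          have h3 := odd_cancel hcop h2
          rcases Int.lt_or_le 0 a with h4 | h4
          · have := Int.le_of_dvd (by omega) h3
            omega
          · have h5 : a = 0 := by omega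
            rw [h5] at h3
            have h6 : δ ∣ 1 := by
              have e : (1 : ℤ) = -(2 * 0 - 1) := by ring
              rw [e]; exact (dvd_neg).mpr h3
            have := Int.le_of_dvd one_pos h6
            omega

end Pool.Agent.Lib.MP_3a897b_coR
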