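import Pool.Agent.Lib.MP_3a897b_coR.Lat
import Pool.Agent.Lib.MP_3a897b_coR.PosC
import Pool.Agent.Lib.MP_3a897b_coR.NegC

/-!
# The necessary condition for all orders
-/

namespace Pool.Agent.Lib.MP_3a897b_coR

open Pool.Agent.Lib.MP_3a897b_co Pool.Agent.Lib.MP_3a897b_coQ

/-- The condition on `η = h / 2` and `m = n - 2 h`. -/
def RepZ (η m : ℤ) : Prop :=
  ∃ c L q t : ℤ, 1 ≤ q ∧ 2 * L + q = 4 * c + 1 ∧ IsCoprime (L * q) m ∧ η = c * m + L * q * t ∧
    ((1 ≤ L ∧ 0 ≤ t) ∨ (L ≤ -1 ∧ t ≤ -1 ∧ m ≤ q))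

theorem cop_half {x l m : ℤ} (h : IsCoprime x m) (hx : x = 2 * l) : IsCoprime l m := by
  rw [hx] at h
  exact h.of_mul_left_right

section

variable {η m τ p δ C s Y : ℤ}

theorem rep_pos (hτ : 0 ≤ τ) (hp : 1 ≤ p) (hδ0 : 1 ≤ δ) (hS : p + δ = 4 * C + 1)
    (hη : η = C * m + p * τ) (hcop : IsCoprime Y δ) (hcop' : IsCoprime s p)
    (hY : δ ∣ Y - (m + 4 * τ)) (hs : p ∣ s + m) (hT : δ ∣ m + 2 * τ - Y) : RepZ η m := by
  have h2τ : δ ∣ 2 * τ := by
    have e : 2 * τ = -((m + 2 * τ - Y) + (Y - (m + 4 * τ))) := by ring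
    rw [e]; exact (dvd_neg).mpr (dvd_add hT hY)
  have hmδ : IsCoprime δ m := by
    have h1 : δ ∣ m - Y := by
      have e : m - Y = (m + 2 * τ - Y) - 2 * τ := by ring
      rw [e]; exact dvd_sub hT h2τ
    obtain ⟨w, hw⟩ := h1
    have e : m = Y + δ * w := by omega
    rw [e]; exact (hcop.add_mul_left_left w).symm
  have hmp : IsCoprime p m := by
    obtain ⟨w, hw⟩ := hs
    have e : m = -s + p * w := by omega
    rw [e]; exact (hcop'.neg_left.add_mul_left_left w).symm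
  rcases Int.emod_two_eq_zero_or_one δ with hev | hov
  · obtain ⟨L, hL⟩ : ∃ L : ℤ, δ = 2 * L := ⟨δ / 2, by omega⟩
    obtain ⟨t, ht⟩ : L ∣ τ := by
      obtain ⟨w, hw⟩ := h2τ
      rw [hL] at hw
      exact ⟨w, by linarith⟩
    refine ⟨C, L, p, t, hp, by omega, (cop_half hmδ hL).mul_left hmp, ?_, Or.inl ⟨by omega, ?_⟩⟩
    · rw [hη, ht]; ring
    · by_contra hcon
      have : L * t < 0 := mul_neg_of_pos_of_neg (by omega) (by omega)
      omega
  · obtain ⟨L, hL⟩ : ∃ L : ℤ, p = 2 * L := ⟨p / 2, by omega⟩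
    obtain ⟨t, ht⟩ : δ ∣ τ := by
      have h1 : IsCoprime δ 2 := ⟨1, -(δ / 2), by omega⟩
      exact h1.dvd_of_dvd_mul_left h2τ
    refine ⟨C, L, δ, 2 * t, hδ0, by omega, (cop_half hmp hL).mul_left hmδ, ?_,
      Or.inl ⟨by omega, ?_⟩⟩
    · rw [hη, ht, hL]; ring
    · by_contra hcon
      have : δ * t < 0 := mul_neg_of_pos_of_neg (by omega) (by omega)
      omega

theorem rep_beta (hτ : 0 ≤ τ) (hm3 : 3 ≤ m) (hp : 1 ≤ p) (hpe : p % 2 = 0) (hδ0 : 1 ≤ δ)
    (hS : p + δ = 4 * C + 1)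
    (hη : η = C * m + p * τ) (hcop : IsCoprime Y δ) (hcop' : IsCoprime s p)
    (hY : δ ∣ Y - (m + 4 * τ)) (hs : p ∣ s + m) (hT : δ ∣ m + 2 * τ) (hmδ : m ≤ δ) :
    RepZ η m := by
  have hδm : IsCoprime δ m := by
    have h1 : δ ∣ Y + m := by
      have e : Y + m = (Y - (m + 4 * τ)) + 2 * (m + 2 * τ) := by ring
      rw [e]; exact dvd_add hY (Dvd.dvd.mul_left hT _)
    obtain ⟨w, hw⟩ := h1
    have e : m = -Y + δ * w := by omega
    rw [e]; exact (hcop.neg_left.add_mul_left_left w).symm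
  have hmp : IsCoprime p m := by
    obtain ⟨w, hw⟩ := hs
    have e : m = -s + p * w := by omega
    rw [e]; exact (hcop'.neg_left.add_mul_left_left w).symm
  obtain ⟨L, hL⟩ : ∃ L : ℤ, p = 2 * L := ⟨p / 2, by omega⟩
  obtain ⟨u, hu⟩ := hT
  have hu1 : 1 ≤ u := by
    by_contra hcon
    have : δ * u ≤ 0 := mul_nonpos_of_nonneg_of_nonpos (by omega) (by omega)
    omega
  refine ⟨C - L, -L, δ, -u, hδ0, by omega, (cop_half hmp hL).neg_left.mul_left hδm, ?_,
    Or.inr ⟨by omega, by omega, hmδ⟩⟩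
  rw [hη, hL]
  linear_combination L * hu

theorem rep_neg_even {d : ℤ} (hτ : 0 ≤ τ) (hm3 : 3 ≤ m) (hmodd : m % 2 = 1) (hp : 1 ≤ p)
    (hd0 : 1 ≤ d) (hd : d ≤ m + 2 * τ - 2) (hS : p - d = 4 * C + 1) (hη : η = C * m + p * τ)
    (hcop : IsCoprime Y d) (hcop' : IsCoprime s p)
    (hY : d ∣ Y - (m + 4 * τ)) (hs : p ∣ s + m) (hT : d ∣ m + 2 * τ - Y) (hde : d % 2 = 0)
    (hmp' : m ≤ p) : RepZ η m := by
  have h2τ : d ∣ 2 * τ := by
    have e : 2 * τ = -((m + 2 * τ - Y) + (Y - (m + 4 * τ))) := by ring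
    rw [e]; exact (dvd_neg).mpr (dvd_add hT hY)
  have hdm : IsCoprime d m := by
    have h1 : d ∣ m - Y := by
      have e : m - Y = (m + 2 * τ - Y) - 2 * τ := by ring
      rw [e]; exact dvd_sub hT h2τ
    obtain ⟨w, hw⟩ := h1
    have e : m = Y + d * w := by omega
    rw [e]; exact (hcop.add_mul_left_left w).symm
  have hmp : IsCoprime p m := by
    obtain ⟨w, hw⟩ := hs
    have e : m = -s + p * w := by omega
    rw [e]; exact (hcop'.neg_left.add_mul_left_left w).symm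
  obtain ⟨l, hl⟩ : ∃ l : ℤ, d = 2 * l := ⟨d / 2, by omega⟩
  obtain ⟨t, ht⟩ : l ∣ τ := by
    obtain ⟨w, hw⟩ := h2τ
    rw [hl] at hw
    exact ⟨w, by linarith⟩
  rcases eq_or_lt_of_le hτ with h0 | h0
  · have hne : p ≠ m := by
      rintro rfl
      have h1 : IsUnit p := hmp.isUnit_of_dvd' dvd_rfl dvd_rfl
      rw [Int.isUnit_iff] at h1
      omega
    obtain ⟨L, hL⟩ : ∃ L : ℤ, p - m = 2 * L := ⟨(p - m) / 2, by omega⟩
    have h1 : IsCoprime L m := by
      apply cop_half _ hL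
      have e : p - m = p + m * (-1) := by ring
      rw [e]; exact hmp.add_mul_left_left _
    have h2 : IsCoprime (m - d) m := by
      have e : m - d = -d + m * 1 := by ring
      rw [e]; exact hdm.neg_left.add_mul_left_left _
    refine ⟨C, L, m - d, 0, by omega, by omega, h1.mul_left h2, ?_, Or.inl ⟨by omega, le_rfl⟩⟩
    rw [hη, ← h0]; ring
  · have ht1 : 1 ≤ t := by
      by_contra hcon
      have : l * t ≤ 0 := mul_nonpos_of_nonneg_of_nonpos (by omega) (by omega)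
      omega
    refine ⟨C, -l, p, -t, hp, by omega, (cop_half hdm hl).neg_left.mul_left hmp, ?_,
      Or.inr ⟨by omega, by omega, hmp'⟩⟩
    rw [hη, ht]; ring

theorem rep_neg_odd {d : ℤ} (hmodd : m % 2 = 1) (hd : d ≤ m - 2) (hS : p - d = 4 * C + 1) (hη : η = C * m)
    (hcop : IsCoprime Y d) (hcop' : IsCoprime s p)
    (hY : d ∣ Y - m) (hs : p ∣ s + m) (hdo : d % 2 = 1)
    (hpm : m + 1 ≤ p) : RepZ η m := by
  have hdm : IsCoprime d m := by
    obtain ⟨w, hw⟩ := hY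
    have e : m = Y + d * (-w) := by linarith
    rw [e]; exact (hcop.add_mul_left_left _).symm
  have hmp : IsCoprime p m := by
    obtain ⟨w, hw⟩ := hs
    have e : m = -s + p * w := by omega
    rw [e]; exact (hcop'.neg_left.add_mul_left_left w).symm
  obtain ⟨L, hL⟩ : ∃ L : ℤ, m - d = 2 * L := ⟨(m - d) / 2, by omega⟩
  have h1 : IsCoprime (p - m) m := by
    have e : p - m = p + m * (-1) := by ring
    rw [e]; exact hmp.add_mul_left_left _
  have h2 : IsCoprime L m := by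
    apply cop_half _ hL
    have e : m - d = -d + m * 1 := by ring
    rw [e]; exact hdm.neg_left.add_mul_left_left _
  refine ⟨C, L, p - m, 0, by omega, by omega, h2.mul_left h1, ?_, Or.inl ⟨by omega, le_rfl⟩⟩
  rw [hη]; ring

end

/-- The case `m = 3`, `3 ∣ η`. -/
theorem rep_three {c : ℤ} (hc : 1 ≤ c) : RepZ (3 * c) 3 := by
  have hcop : ∀ x : ℤ, x % 3 ≠ 0 → IsCoprime x 3 := by
    intro x hx
    have h1 : x % 3 = 1 ∨ x % 3 = 2 := by omega
    rcases h1 with h1 | h1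
    · exact ⟨1, -(x / 3), by omega⟩
    · exact ⟨-1, x / 3 + 1, by omega⟩
  rcases em (c % 3 = 1) with h | h
  · refine ⟨c, 2 * c, 1, 0, le_rfl, by ring, hcop _ (by omega), by ring,
      Or.inl ⟨by omega, le_rfl⟩⟩
  · refine ⟨c, 1, 4 * c - 1, 0, by omega, by ring, hcop _ (by omega), by ring,
      Or.inl ⟨le_rfl, le_rfl⟩⟩

variable {n N σ ρ : ℤ} {η : ℕ}

/-- The necessary condition. -/
theorem crit_all (D : Data n (2 * η) (2 * ρ) N σ) (hodd : n % 2 = 1) (hη : 1 ≤ η)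
    {m : ℤ} (hm : n = 4 * η + m) (hm2 : 2 ≤ m) : RepZ η m := by
  have hnpos := D.npos
  have hn := D.hn
  have hr := D.hr
  have hr0 := D.hr0
  have hhalf := D.half
  push_cast at hn hr
  have hη' : (1 : ℤ) ≤ η := by exact_mod_cast hη
  have hmodd : m % 2 = 1 := by omega
  have hm3 : 3 ≤ m := by omega
  obtain ⟨τ, hτ⟩ : ∃ τ : ℤ, τ = η - ρ := ⟨_, rfl⟩
  have hτ0 : 0 ≤ τ := by omega
  have hNm : N = m + 2 * τ - 1 := by omega
  have hnm : m + 4 * τ ≤ n := by omega
  rcases Int.lt_or_le N 3 with hN3 | hN3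
  · -- `N = 2`
    have h1 : m = 3 := by omega
    have h2 : ρ = η := by omega
    have h3 : n ∣ η * (σ + 1) := by
      have := dvd_half D hodd
      rw [h2] at this
      have e : (η : ℤ) * (σ + 1) = η * σ + η := by ring
      rw [e]; exact this
    rcases em ((η : ℤ) % 3 = 0) with h4 | h4
    · obtain ⟨c, hc⟩ : ∃ c : ℤ, (η : ℤ) = 3 * c := ⟨η / 3, by omega⟩
      rw [hc, h1]
      exact rep_three (by omega)
    · exfalso
      have h5 : IsCoprime n (η : ℤ) := by
        have h6 : IsCoprime (3 : ℤ) η := by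
          have h7 : (η : ℤ) % 3 = 1 ∨ (η : ℤ) % 3 = 2 := by omega
          rcases h7 with h7 | h7
          · exact ⟨-((η : ℤ) / 3), 1, by omega⟩
          · exact ⟨(η : ℤ) / 3 + 1, -1, by omega⟩
        have e : n = 3 + η * 4 := by omega
        rw [e]; exact h6.add_mul_left_left _
      have h6 : n ∣ σ + 1 := h5.dvd_of_dvd_mul_left h3
      have hcard : 0 < (hits n (2 * η) σ 1 N).card := by omega
      rw [Finset.card_pos] at hcard
      obtain ⟨i, hi⟩ := hcard
      rw [hits, Finset.mem_filter, Finset.mem_range] at hi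
      have h7 : n ∣ (i : ℤ) * σ - ((i : ℤ) * σ) % n := Int.dvd_self_sub_emod
      have h8 : n ∣ (i : ℤ) + ((i : ℤ) * σ) % n := by
        have e : (i : ℤ) + ((i : ℤ) * σ) % n = i * (σ + 1) -
            ((i : ℤ) * σ - ((i : ℤ) * σ) % n) := by ring
        rw [e]; exact dvd_sub (Dvd.dvd.mul_left h6 _) h7
      have h9 := Int.le_of_dvd (by omega) h8
      omega
  -- the least step
  obtain ⟨p, δ, M, hδ, hp⟩ := exists_min D hN3
  obtain ⟨C, hC⟩ := exists_C D hodd hp
  obtain ⟨s, Y, hY, hs⟩ := gen D M hδ hp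
  have hcs := cop_s M hδ hp hY hs
  obtain ⟨g1, g2⟩ := cong D hodd M hδ hp hY hs hm hC
  rw [← hτ] at g1
  have hp1 : (1 : ℤ) ≤ p := by exact_mod_cast M.1
  have hnS : n * (p + δ - 4 * C) = m * (p + δ) + 4 * (p * τ) := by
    have e : n * (p + δ - 4 * C) = n * (p + δ) - 4 * (C * n) := by ring
    rw [e, hC, hτ, hm]; ring
  have hδ' := hδ
  rw [abs_le] at hδ'
  have hηS : p + δ - 4 * C = 1 → (η : ℤ) = C * m + p * τ := by
    intro h
    rw [h, mul_one, hm] at hnS
    have e : (p : ℤ) + δ = 4 * C + 1 := by omega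
    rw [e] at hnS
    linarith
  rcases lt_trichotomy δ 0 with hneg | hzero | hpos
  · -- negative step
    obtain ⟨d, rfl⟩ : ∃ d, δ = -d := ⟨-δ, by ring⟩
    have hcY : IsCoprime Y d := by
      have := cop_Y D hodd M (by omega) hδ hp hY hs
      exact (IsCoprime.neg_right_iff Y d).mp this
    have hp' : n ∣ p * σ + d := by
      have e : (p : ℤ) * σ + d = p * σ - -d := by ring
      rw [e]; exact hp
    have hpN : (p : ℤ) = 1 ∨ (p : ℤ) * N ≤ n - d := by
      rcases Nat.lt_or_ge 1 p with hp2 | hp2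
      · exact Or.inr (pN_le_neg D M (by omega) (by omega) hp' hp2)
      · left
        have : p = 1 := le_antisymm hp2 M.1
        rw [this]; rfl
    have hpar : ¬ ((p : ℤ) % 2 = 0 ∧ d % 2 = 0) := by
      rintro ⟨h1, h2⟩
      obtain ⟨q, rfl⟩ : ∃ q, p = 2 * q := ⟨p / 2, by omega⟩
      obtain ⟨e, rfl⟩ : ∃ e, d = 2 * e := ⟨d / 2, by omega⟩
      have hq1 := M.1
      refine M.2 q (by omega) (by omega) (-e) (by rw [abs_le]; constructor <;> omega) ?_
      apply dvd_of_two_mul hodd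
      have e1 : 2 * ((q : ℤ) * σ - -e) = ((2 * q : ℕ) : ℤ) * σ - -(2 * e) := by push_cast; ring
      rw [e1]; exact hp
    have hhit : ∀ κ : ℤ, 1 ≤ κ → κ ≤ N → ∀ i : ℕ, i ≤ 2 * η → ((i : ℤ) * σ) % n = κ →
        ∃ a : ℤ, 1 ≤ a ∧ 2 * (n * a) ≤ n * (d + (p + -d - 4 * C)) + p * (2 * κ - m - 4 * τ) ∧
          d ∣ κ - a * Y := by
      intro κ k1 k2 i hi hκ
      have h3 : n ∣ (i : ℤ) * σ - κ := by rw [← hκ]; exact Int.dvd_self_sub_emod
      obtain ⟨a, q, c1, -, c3⟩ := crd M hδ hp hY hs h3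
      have hdi : 0 ≤ d * (i : ℤ) := mul_nonneg (by omega) (by positivity)
      have hpκ : 0 < (p : ℤ) * κ := mul_pos (by omega) (by omega)
      have hi' : (i : ℤ) ≤ 2 * η := by exact_mod_cast hi
      have hdi2 : d * (i : ℤ) ≤ d * (2 * η) := mul_le_mul_of_nonneg_left hi' (by omega)
      refine ⟨-a, ?_, ?_, ⟨-q, by linarith⟩⟩
      · by_contra hcon
        have : 0 ≤ n * a := mul_nonneg hnpos.le (by omega)
        have e : -d * (i : ℤ) = -(d * i) := by ring
        omega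
      · have e1 : n * (d + (p + -d - 4 * C)) + p * (2 * κ - m - 4 * τ) =
            d * (4 * η) + 2 * (p * κ) := by
          have e2 : n * (d + (p + -d - 4 * C)) = n * d + n * (p + -d - 4 * C) := by ring
          rw [e2, hnS, hm]; ring
        have e3 : 2 * (n * -a) = 2 * (d * i) + 2 * (p * κ) := by
          linear_combination (2 : ℤ) * c1
        rw [e1, e3]
        linarith
    obtain ⟨hS, hT, hpN', hcases⟩ := neg_case (S := p + -d - 4 * C) (C := C) hm3 hmodd hτ0 hnm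
      hNm hp1 (by omega) (by omega) (by ring) (by rw [hnS]; ring) hpN hpar hcY
      ((neg_dvd).mp g1) (by
        intro κ k1 k2
        rcases D.cov κ k1 k2 with ⟨i, hi, hi'⟩ | ⟨i, hi, hi'⟩
        · exact Or.inl (hhit κ k1 k2 i hi hi')
        · exact Or.inr (hhit (N + 1 - κ) (by omega) (by omega) i hi hi'))
    have hηeq := hηS hS
    rw [hS, one_mul] at g1 g2
    have hg1 : d ∣ Y - (m + 4 * τ) := (neg_dvd).mp g1
    have hT' : d ∣ m + 2 * τ - Y := by
      have e : m + 2 * τ - Y = N + 1 - Y := by rw [hNm]; ring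
      rw [e]; exact hT
    rcases hcases with ⟨h1, h2⟩ | ⟨h1, h2⟩
    · exact rep_neg_even (C := C) hτ0 hm3 hmodd hp1 (by omega) (by omega) (by omega) hηeq hcY hcs hg1 g2
        hT' h1 h2
    · rw [h2] at hηeq hg1 hNm hnS
      have h3 : m + 1 ≤ p := by
        have h4 : (p : ℤ) * N = p * (m - 1) := by rw [hNm]; ring
        rw [hS] at hnS
        have h5 : d * (m + 1) ≤ p := by nlinarith
        have h6 : 1 * (m + 1) ≤ d * (m + 1) := mul_le_mul_of_nonneg_right (by omega) (by omega)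
        omega
      exact rep_neg_odd (C := C) hmodd (by omega) (by omega) (by rw [hηeq]; ring) hcY hcs
        (by simpa using hg1) g2 h1 h3
  · exfalso
    subst hzero
    exact zero_false D M hN3 (by simpa using hp)
  · -- positive step
    have hcY := cop_Y D hodd M (by omega) hδ hp hY hs
    have hpN : (p : ℤ) = 1 ∨ (p : ℤ) * N ≤ n - δ := by
      rcases Nat.lt_or_ge 1 p with hp2 | hp2
      · exact Or.inr (pN_le D M (by omega) (by omega) hp hp2)
      · left
        have : p = 1 := le_antisymm hp2 M.1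
        rw [this]; rfl
    have hpNn : (p : ℤ) * N < n := by
      rcases hpN with h | h
      · rw [h]; omega
      · omega
    have hpar : ¬ ((p : ℤ) % 2 = 0 ∧ δ % 2 = 0) := by
      rintro ⟨h1, h2⟩
      exact not_both_even hodd M (by omega) (by omega) hp (by omega) h2
    have hhit : ∀ κ : ℤ, 1 ≤ κ → κ ≤ N → ∀ i : ℕ, i ≤ 2 * η → ((i : ℤ) * σ) % n = κ →
        ∃ a : ℤ, 0 ≤ a ∧ 2 * (n * a) ≤ n * (δ - (p + δ - 4 * C)) + p * (m + 4 * τ - 2 * κ) ∧
          δ ∣ κ + a * Y := by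
      intro κ k1 k2 i hi hκ
      have h3 : n ∣ (i : ℤ) * σ - κ := by rw [← hκ]; exact Int.dvd_self_sub_emod
      obtain ⟨a, q, c1, -, c3⟩ := crd M hδ hp hY hs h3
      have hdi : 0 ≤ δ * (i : ℤ) := mul_nonneg (by omega) (by positivity)
      have hpκ : (p : ℤ) * κ ≤ p * N := mul_le_mul_of_nonneg_left k2 (by omega)
      have hi' : (i : ℤ) ≤ 2 * η := by exact_mod_cast hi
      have hdi2 : δ * (i : ℤ) ≤ δ * (2 * η) := mul_le_mul_of_nonneg_left hi' (by omega)
      refine ⟨a, ?_, ?_, ⟨q, by linarith⟩⟩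
      · by_contra hcon
        have : n * a ≤ n * (-1) := mul_le_mul_of_nonneg_left (by omega) hnpos.le
        omega
      · have e1 : n * (δ - (p + δ - 4 * C)) + p * (m + 4 * τ - 2 * κ) =
            δ * (4 * η) - 2 * (p * κ) := by
          have e2 : n * (δ - (p + δ - 4 * C)) = n * δ - n * (p + δ - 4 * C) := by ring
          rw [e2, hnS, hm]; ring
        rw [e1, ← c1]
        linarith
    obtain ⟨hS, hcases⟩ := pos_case (S := p + δ - 4 * C) (C := C) hm3 hmodd hτ0 hnm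
      hNm hp1 (by omega) (by omega) rfl hnS hpN hpar hcY hcs g1 g2 (by
        intro κ k1 k2
        rcases D.cov κ k1 k2 with ⟨i, hi, hi'⟩ | ⟨i, hi, hi'⟩
        · exact Or.inl (hhit κ k1 k2 i hi hi')
        · exact Or.inr (hhit (N + 1 - κ) (by omega) (by omega) i hi hi'))
    have hηeq := hηS hS
    rw [hS, one_mul] at g1 g2
    have e : N + 1 = m + 2 * τ := by omega
    rw [e] at hcases
    rcases hcases with h1 | ⟨h1, h2, h3⟩
    · exact rep_pos (C := C) hτ0 hp1 (by omega) (by omega) hηeq hcY hcs g1 g2 h1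
    · exact rep_beta (C := C) hτ0 hm3 hp1 h1 (by omega) (by omega) hηeq hcY hcs g1 g2 h2 h3

end Pool.Agent.Lib.MP_3a897b_coR
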