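import Pool.Agent.Lib.MP_3a897b_coQ.Suff

/-!
# The sufficient condition with a negative sign
-/

namespace Pool.Agent.Lib.MP_3a897b_coR

open Pool.Agent.Lib.MP_3a897b_co Pool.Agent.Lib.MP_3a897b_coQ

/-- From hits in the window to a covering. -/
theorem cover_of_hits {n k m τ σ : ℤ} (hn : n = 4 * k + m) (hm : 1 ≤ m) (hτ0 : 0 ≤ τ)
    (hτk : τ ≤ k) (hkσ : n ∣ k * σ + (k - τ))
    (hits : ∀ κ, 1 ≤ κ → κ ≤ m + 2 * τ - 1 → ∃ i : ℤ, 0 ≤ i ∧ i ≤ 2 * k ∧
      (n ∣ i * σ - κ ∨ n ∣ i * σ - (m + 2 * τ - κ))) (z : ℤ) :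
    ∃ x y : ℤ, |x + y| + |x - y| = 2 * k ∧ n ∣ x * σ + y - z := by
  have hk0 : 0 ≤ k := by omega
  have hnpos : 0 < n := by omega
  have hw0 := Int.emod_nonneg (z + (2 * k - τ)) hnpos.ne'
  have hw1 := Int.emod_lt_of_pos (z + (2 * k - τ)) hnpos
  have hw2 : n ∣ (z + (2 * k - τ)) - (z + (2 * k - τ)) % n := Int.dvd_self_sub_emod
  obtain ⟨w, hw⟩ : ∃ w : ℤ, w = (z + (2 * k - τ)) % n - (2 * k - τ) := ⟨_, rfl⟩
  have hwz : n ∣ w - z := by
    have e : w - z = -((z + (2 * k - τ)) - (z + (2 * k - τ)) % n) := by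
      rw [hw]; ring
    rw [e]; exact (dvd_neg).mpr hw2
  -- it is enough to reach `w`
  have hred : (∃ x y : ℤ, |x + y| + |x - y| = 2 * k ∧ n ∣ x * σ + y - w) →
      ∃ x y : ℤ, |x + y| + |x - y| = 2 * k ∧ n ∣ x * σ + y - z := by
    rintro ⟨x, y, hxy, hd⟩
    refine ⟨x, y, hxy, ?_⟩
    have e : x * σ + y - z = (x * σ + y - w) + (w - z) := by ring
    rw [e]; exact dvd_add hd hwz
  -- the norm
  have hnorm : ∀ x y : ℤ, (|x| = k ∧ |y| ≤ k) ∨ (|y| = k ∧ |x| ≤ k) →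
      |x + y| + |x - y| = 2 * k := by
    intro x y hxy
    rcases abs_cases x with ⟨a1, a2⟩ | ⟨a1, a2⟩ <;> rcases abs_cases y with ⟨b1, b2⟩ | ⟨b1, b2⟩ <;>
      rcases abs_cases (x + y) with ⟨c1, c2⟩ | ⟨c1, c2⟩ <;>
      rcases abs_cases (x - y) with ⟨d1, d2⟩ | ⟨d1, d2⟩ <;> omega
  apply hred
  rcases Int.lt_or_le (2 * k - τ) w with hc | hc
  · obtain ⟨i, hi0, hi1, hi2 | hi2⟩ := hits (w - (2 * k - τ)) (by omega) (by omega)
    · refine ⟨i - k, k, hnorm _ _ (Or.inr ⟨abs_of_nonneg hk0, ?_⟩), ?_⟩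
      · rw [abs_le]; constructor <;> omega
      · have e : (i - k) * σ + k - w = (i * σ - (w - (2 * k - τ))) -
            (k * σ + (k - τ)) := by ring
        rw [e]; exact dvd_sub hi2 hkσ
    · refine ⟨k - i, -k, hnorm _ _ (Or.inr ⟨by rw [abs_neg]; exact abs_of_nonneg hk0, ?_⟩), ?_⟩
      · rw [abs_le]; constructor <;> omega
      · have e : (k - i) * σ + -k - w = (k * σ + (k - τ)) -
            (i * σ - (m + 2 * τ - (w - (2 * k - τ)))) - n := by
          rw [hn]; ring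
        rw [e]; exact dvd_sub (dvd_sub hkσ hi2) dvd_rfl
  · rcases Int.lt_or_le τ w with hc' | hc'
    · refine ⟨-k, w - (k - τ), hnorm _ _ (Or.inl ⟨by rw [abs_neg]; exact abs_of_nonneg hk0, ?_⟩),
        ?_⟩
      · rw [abs_le]; constructor <;> omega
      · have e : -k * σ + (w - (k - τ)) - w = -(k * σ + (k - τ)) := by ring
        rw [e]; exact (dvd_neg).mpr hkσ
    · refine ⟨k, w + (k - τ), hnorm _ _ (Or.inl ⟨abs_of_nonneg hk0, ?_⟩), ?_⟩
      · rw [abs_le]; constructor <;> omega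
      · have e : k * σ + (w + (k - τ)) - w = k * σ + (k - τ) := by ring
        rw [e]; exact hkσ

/-- One line of hits. -/
theorem hit_neg {n k m c l p t σ κ a : ℤ} (hn : n = 4 * k + m)
    (hl : 1 ≤ l) (ht : 1 ≤ t) (hm : 1 ≤ m) (hmp : m ≤ p) (hsum : p - 2 * l = 4 * c + 1)
    (hk : k = c * m + l * p * t) (h1 : n ∣ p * σ + 2 * l) (h2 : n ∣ m * σ + (m + 4 * l * t))
    (hκ1 : 1 ≤ κ) (hκ2 : κ ≤ m + 2 * l * t - 1) (ha0 : 1 ≤ a) (ha1 : a ≤ l)
    (ha : 2 * l ∣ κ - a * (m + 4 * l * t)) : ∃ i : ℤ, 0 ≤ i ∧ i ≤ 2 * k ∧ n ∣ i * σ - κ := by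
  obtain ⟨b, hb⟩ := ha
  have hp1 : 1 ≤ p := by omega
  have hlp : l * m ≤ l * p := mul_le_mul_of_nonneg_left hmp (by omega)
  have hlpt : l * p * 1 ≤ l * p * t :=
    mul_le_mul_of_nonneg_left ht (mul_nonneg (by omega) (by omega))
  have hlm : 0 < l * m := mul_pos (by omega) (by omega)
  have hpm : 0 < p * m := mul_pos (by omega) (by omega)
  have hnn : n = p * m - 2 * (l * m) + 4 * (l * p * t) := by
    rw [hn, hk]
    linear_combination (-m) * hsum
  have hn0 : 0 < n := by omega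
  have e1 : 2 * l * (-(a * m) - b * p) = a * n - p * κ := by
    rw [hnn]
    linear_combination p * hb
  refine ⟨-(a * m) - b * p, ?_, ?_, ?_⟩
  · have k1 : 1 * n ≤ a * n := mul_le_mul_of_nonneg_right ha0 hn0.le
    have k2 : p * κ ≤ p * (m + 2 * l * t - 1) := mul_le_mul_of_nonneg_left hκ2 (by omega)
    have e2 : p * (m + 2 * l * t - 1) = p * m + 2 * (l * p * t) - p := by ring
    have k3 : 0 ≤ 2 * l * (-(a * m) - b * p) := by omega
    exact nonneg_of_mul_nonneg_right k3 (by omega)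
  · have k3 : 2 * l * (-(a * m) - b * p) ≤ 2 * l * (2 * k) := by
      have e3 : 2 * l * (2 * k) = l * n - l * m := by rw [hn]; ring
      rw [e1, e3]
      have hpκ : 0 < p * κ := mul_pos (by omega) (by omega)
      rcases eq_or_lt_of_le ha1 with h | h
      · subst h
        have h3 : a ∣ κ := by
          have e4 : κ = 2 * a * b + a * (m + 4 * a * t) := by linarith
          rw [e4]
          exact ⟨2 * b + (m + 4 * a * t), by ring⟩
        have h4 := Int.le_of_dvd (by omega) h3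
        have h5 : p * a ≤ p * κ := mul_le_mul_of_nonneg_left h4 (by omega)
        have e5 : p * a = a * p := by ring
        omega
      · have h3 : a * n ≤ (l - 1) * n := mul_le_mul_of_nonneg_right (by omega) hn0.le
        have e4 : (l - 1) * n = l * n - n := by ring
        omega
    exact le_of_mul_le_mul_left k3 (by omega)
  · have e : (-(a * m) - b * p) * σ - κ = -(a * (m * σ + (m + 4 * l * t))) -
        b * (p * σ + 2 * l) := by
      linear_combination (-1 : ℤ) * hb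
    rw [e]
    exact dvd_sub ((dvd_neg).mpr (Dvd.dvd.mul_left h2 _)) (Dvd.dvd.mul_left h1 _)

theorem hits_neg {n k m c l p t σ κ : ℤ} (hodd : n % 2 = 1) (hn : n = 4 * k + m)
    (hl : 1 ≤ l) (ht : 1 ≤ t) (hm : 1 ≤ m) (hmp : m ≤ p) (hsum : p - 2 * l = 4 * c + 1)
    (hcopl : IsCoprime l m)
    (hk : k = c * m + l * p * t) (h1 : n ∣ p * σ + 2 * l) (h2 : n ∣ m * σ + (m + 4 * l * t))
    (hκ1 : 1 ≤ κ) (hκ2 : κ ≤ m + 2 * l * t - 1) : ∃ i : ℤ, 0 ≤ i ∧ i ≤ 2 * k ∧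
      (n ∣ i * σ - κ ∨ n ∣ i * σ - (m + 2 * l * t - κ)) := by
  have hcop2 : IsCoprime (m + 4 * l * t) (2 * l) := by
    have h3 : IsCoprime m (2 * l) := by
      apply IsCoprime.mul_right _ hcopl.symm
      refine ⟨1, -(m / 2), ?_⟩
      omega
    have e : m + 4 * l * t = m + 2 * l * (2 * t) := by ring
    rw [e]; exact h3.add_mul_left_left _
  obtain ⟨u, v, huv⟩ := hcop2
  have hL2 : (0 : ℤ) < 2 * l := by omega
  have ha0 := Int.emod_nonneg (κ * u - 1) hL2.ne'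
  have ha1 := Int.emod_lt_of_pos (κ * u - 1) hL2
  have ha2 : 2 * l ∣ (κ * u - 1) - (κ * u - 1) % (2 * l) := Int.dvd_self_sub_emod
  obtain ⟨a, ha⟩ : ∃ a : ℤ, a = (κ * u - 1) % (2 * l) + 1 := ⟨_, rfl⟩
  have ha2' : 2 * l ∣ κ * u - a := by
    have e : κ * u - a = (κ * u - 1) - (κ * u - 1) % (2 * l) := by rw [ha]; ring
    rw [e]; exact ha2
  have ha3 : 2 * l ∣ κ - a * (m + 4 * l * t) := by
    have e : κ - a * (m + 4 * l * t) = (κ * u - a) * (m + 4 * l * t) + 2 * l * (κ * v) := by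
      linear_combination (-κ) * huv
    rw [e]
    exact dvd_add (Dvd.dvd.mul_right ha2' _) (Dvd.intro _ rfl)
  have hlt : 0 < l * t := mul_pos (by omega) (by omega)
  rcases Int.lt_or_le l a with h | h
  · obtain ⟨i, hi0, hi1, hi2⟩ := hit_neg (a := 2 * l + 1 - a)
      (κ := m + 2 * l * t - κ) hn hl ht hm hmp hsum hk h1 h2 (by omega) (by omega)
      (by omega) (by omega) (by
        have e : m + 2 * l * t - κ - (2 * l + 1 - a) * (m + 4 * l * t) =
            2 * l * (-t - (m + 4 * l * t)) - (κ - a * (m + 4 * l * t)) := by ring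
        rw [e]; exact dvd_sub (Dvd.intro _ rfl) ha3)
    exact ⟨i, hi0, hi1, Or.inr hi2⟩
  · obtain ⟨i, hi0, hi1, hi2⟩ := hit_neg (a := a) hn hl ht hm hmp hsum hk h1 h2 hκ1 hκ2
      (by omega) h ha3
    exact ⟨i, hi0, hi1, Or.inl hi2⟩

/-- The square boundary covers all residues. -/
theorem square_cover_neg {n k m c l p t : ℤ} (hodd : n % 2 = 1) (hn : n = 4 * k + m)
    (hl : 1 ≤ l) (ht : 1 ≤ t) (hm : 1 ≤ m) (hmp : m ≤ p) (hp2 : 2 ≤ p)
    (hsum : p - 2 * l = 4 * c + 1) (hcop : IsCoprime (l * p) m) (hk : k = c * m + l * p * t) :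
    ∃ σ : ℤ, σ % 2 = 1 ∧ ∀ z : ℤ, ∃ x y : ℤ, |x + y| + |x - y| = 2 * k ∧
      n ∣ x * σ + y - z := by
  obtain ⟨σ, hσ, h1, h2⟩ := exists_sigma (n := n) (k := k) (m := m) (c := c) (L := -l) (q := p)
    (t := -t) hodd hn (by omega) hcop.of_mul_left_right (by rw [hk]; ring)
  have h1' : n ∣ p * σ + 2 * l := by
    have e : p * σ + 2 * l = p * σ - 2 * -l := by ring
    rw [e]; exact h1
  have h2' : n ∣ m * σ + (m + 4 * l * t) := by
    have e : m * σ + (m + 4 * l * t) = m * σ + (m + 4 * -l * -t) := by ring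
    rw [e]; exact h2
  refine ⟨σ, hσ, ?_⟩
  have hlt : 0 < l * t := mul_pos (by omega) (by omega)
  have hkσ : n ∣ k * σ + (k - l * t) := by
    have e : k * σ + (k - l * t) = c * (m * σ + (m + 4 * l * t)) + l * t * (p * σ + 2 * l) := by
      linear_combination (σ + 1) * hk + (l * t) * hsum
    rw [e]; exact dvd_add (Dvd.dvd.mul_left h2' _) (Dvd.dvd.mul_left h1' _)
  have hτk : l * t ≤ k := by
    have k1 : 0 ≤ (p - 1) * m := mul_nonneg (by omega) (by omega)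
    have k2 : l * m ≤ l * (2 * (p - 1)) := mul_le_mul_of_nonneg_left (by omega) (by omega)
    have k3 : (p - 1) * l * 1 ≤ (p - 1) * l * t :=
      mul_le_mul_of_nonneg_left ht (mul_nonneg (by omega) (by omega))
    nlinarith
  have e0 : m + 2 * (l * t) = m + 2 * l * t := by ring
  apply cover_of_hits hn hm hlt.le hτk hkσ
  intro κ k1 k2
  rw [e0] at k2 ⊢
  exact hits_neg hodd hn hl ht hm hmp hsum hcop.of_mul_left_left hk h1' h2' k1 k2

end Pool.Agent.Lib.MP_3a897b_coR
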