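import Pool.Agent.Lib.MP_3a897b_co.Final
import Pool.Agent.Lib.MP_3a897b_coR.Main
import Pool.Agent.Lib.MP_3a897b_coR.SuffNeg

/-!
# The groups with `φ± = 2`
-/

namespace Pool.Agent.Lib.MP_3a897b_coR

open Pool.Agent.Lib.MP_3a897b_co Pool.Agent.Lib.MP_3a897b_coQ

universe u

variable {G : Type u} [AddCommGroup G]

theorem suff_cover [Finite G] {h : ℕ} (hh : 1 ≤ h) (hcard : 2 ≤ Nat.card G)
    (hcyc : IsAddCyclic G) {k σ : ℤ} (hk : (h : ℤ) = 2 * k) (hσ : σ % 2 = 1)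
    (hcov : ∀ z : ℤ, ∃ x y : ℤ, |x + y| + |x - y| = 2 * k ∧
      (Nat.card G : ℤ) ∣ x * σ + y - z) : phiPM G h = 2 := by
  obtain ⟨g, hg⟩ := hcyc.exists_zsmul_surjective
  have hg' : ∀ z : G, z ∈ AddSubgroup.zmultiples g := fun z => by
    obtain ⟨k, hk⟩ := hg z
    exact AddSubgroup.mem_zmultiples_iff.mpr ⟨k, hk⟩
  rw [phi_eq_two_iff hh]
  obtain ⟨τ, hτ⟩ : ∃ τ : ℤ, σ = 2 * τ + 1 := ⟨σ / 2, by omega⟩
  refine ⟨(τ + 1) • g, τ • g, ?_, ?_⟩
  · apply ne_of_not_dvd hg'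
    intro h5
    have e : τ + 1 - τ = (1 : ℤ) := by ring
    rw [e] at h5
    have := Int.le_of_dvd one_pos h5
    omega
  · apply spans_of_rep hg'
    intro z _ _
    obtain ⟨x, y, hxy, hd⟩ := hcov z
    refine ⟨x + y, x - y, ?_, ?_⟩
    · rw [hxy, hk]
    · have e : (x + y) * (τ + 1) + (x - y) * τ - z = x * σ + y - z := by rw [hτ]; ring
      rw [e]; exact hd

theorem even_iff [Finite G] {h : ℕ} (hh : 1 ≤ h) {k : ℕ} (hk : h = 2 * k)
    (hbig : 2 * h + 2 ≤ Nat.card G) : phiPM G h = 2 ↔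
      IsAddCyclic G ∧ Odd (Nat.card G) ∧ RepZ k ((Nat.card G : ℤ) - 2 * h) := by
  subst hk
  constructor
  · intro H
    obtain ⟨a, b, hab, hs⟩ := (phi_eq_two_iff hh).mp H
    refine ⟨isAddCyclic_of_span hs, ?_⟩
    obtain ⟨r, N, σ, D, hσ⟩ := hs.data hbig
    have hodd : (Nat.card G : ℤ) % 2 = 1 := by
      rcases Int.emod_two_eq_zero_or_one (Nat.card G : ℤ) with h0 | h1
      · exact (even_false D (by exact_mod_cast hbig) h0 hσ).elim
      · exact h1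
    have hpar := D.hpar
    obtain ⟨ρ, rfl⟩ : ∃ ρ, r = 2 * ρ := ⟨r / 2, by push_cast at hpar; omega⟩
    refine ⟨by rw [Nat.odd_iff]; omega, ?_⟩
    exact crit_all D hodd (by omega) (by push_cast; ring) (by push_cast; omega)
  · rintro ⟨hcyc, hodd, c, L, q, t, hq, hsum, hcop, hη, hcase⟩
    rw [Nat.odd_iff] at hodd
    have hodd' : (Nat.card G : ℤ) % 2 = 1 := by omega
    have hn : (Nat.card G : ℤ) = 4 * (k : ℤ) + ((Nat.card G : ℤ) - 2 * ((2 * k : ℕ) : ℤ)) := by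
      push_cast; ring
    have hk0 : ((2 * k : ℕ) : ℤ) = 2 * (k : ℤ) := by push_cast; ring
    have hm : 1 ≤ (Nat.card G : ℤ) - 2 * ((2 * k : ℕ) : ℤ) := by push_cast; omega
    rcases hcase with ⟨h1, h2⟩ | ⟨h1, h2, h3⟩
    · obtain ⟨σ, hσ, hcov⟩ := square_cover hodd' hn h1 hq h2 hm hsum hcop hη
      exact suff_cover hh (by omega) hcyc hk0 hσ hcov
    · obtain ⟨σ, hσ, hcov⟩ := square_cover_neg (l := -L) (p := q) (t := -t) (c := c) hodd' hn
        (by omega) (by omega) hm h3 (by omega) (by omega) (by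
          have e : -L * q = -(L * q) := by ring
          rw [e]; exact hcop.neg_left) (by rw [hη]; ring)
      exact suff_cover hh (by omega) hcyc hk0 hσ hcov

end Pool.Agent.Lib.MP_3a897b_coR
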