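import Pool.Agent.Lib.MP_3a897b_coQ.Crit

/-!
# The lattice of the multiplier
-/

namespace Pool.Agent.Lib.MP_3a897b_coR

open Pool.Agent.Lib.MP_3a897b_co Pool.Agent.Lib.MP_3a897b_coQ

variable {n N σ δ ρ : ℤ} {p η : ℕ}

/-- A generator of the lattice next to the step. -/
theorem gen (D : Data n (2 * η) (2 * ρ) N σ) (M : MinStep n N σ p) (hδ : |δ| ≤ N - 1)
    (hp : n ∣ p * σ - δ) : ∃ s Y : ℤ, (p : ℤ) * Y = δ * s + n ∧ n ∣ s * σ - Y := by
  rcases Nat.lt_or_ge 1 p with hp2 | hp2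
  · obtain ⟨i, hi1, hi2, hi3⟩ := M.surj D.npos D.hN hδ hp (m := 1) le_rfl hp2
    exact ⟨i, ((i : ℤ) * σ) % n, by rw [hi3]; push_cast; ring, Int.dvd_self_sub_emod⟩
  · have hp' : p = 1 := le_antisymm hp2 M.1
    exact ⟨0, n, by rw [hp']; push_cast; ring, ⟨-1, by ring⟩⟩

/-- A lattice vector parallel to the step is a multiple of it. -/
theorem par (M : MinStep n N σ p) (hδ : |δ| ≤ N - 1) (hp : n ∣ p * σ - δ) {I K : ℤ}
    (h1 : n ∣ I * σ - K) (h2 : δ * I = p * K) : ∃ q : ℤ, I = q * p ∧ K = q * δ := by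
  have hp0 : (0 : ℤ) < p := by exact_mod_cast M.1
  have hr0 := Int.emod_nonneg I hp0.ne'
  have hr1 := Int.emod_lt_of_pos I hp0
  have hI : (p : ℤ) * (I / p) + I % p = I := Int.mul_ediv_add_emod I p
  set q := I / (p : ℤ) with hq
  set r := I % (p : ℤ) with hr
  have h3 : (p : ℤ) * (K - q * δ) = δ * r := by
    have : δ * (p * q + r) = p * K := by rw [hI]; exact h2
    linarith
  have h4 : n ∣ r * σ - (K - q * δ) := by
    have e : r * σ - (K - q * δ) = (I * σ - K) - q * (p * σ - δ) := by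
      rw [← hI]; ring
    rw [e]; exact dvd_sub h1 (Dvd.dvd.mul_left hp _)
  rcases eq_or_lt_of_le hr0 with h | h
  · rw [← h, mul_zero] at h3
    have k1 : K - q * δ = 0 := by
      rcases mul_eq_zero.mp h3 with k | k
      · omega
      · exact k
    refine ⟨q, ?_, by omega⟩
    rw [← hI, ← h]; ring
  · exfalso
    have k1 : |K - q * δ| ≤ N - 1 := by
      have k2 : (p : ℤ) * |K - q * δ| ≤ p * (N - 1) := by
        have k3 : (p : ℤ) * |K - q * δ| = |δ| * r := by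
          rw [← abs_of_pos hp0, ← abs_mul, h3, abs_mul, abs_of_pos h]
        rw [k3, mul_comm (p : ℤ)]
        exact mul_le_mul hδ hr1.le hr0 (by have := abs_nonneg δ; omega)
      exact le_of_mul_le_mul_left k2 hp0
    refine M.2 r.toNat (by omega) (by omega) (K - q * δ) k1 ?_
    rw [Int.toNat_of_nonneg hr0]; exact h4

/-- The coordinates of a lattice vector. -/
theorem crd (M : MinStep n N σ p) (hδ : |δ| ≤ N - 1) (hp : n ∣ p * σ - δ) {s Y : ℤ}
    (hY : (p : ℤ) * Y = δ * s + n) (hs : n ∣ s * σ - Y) {I K : ℤ} (h1 : n ∣ I * σ - K) :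
    ∃ a q : ℤ, δ * I - p * K = n * a ∧ I + a * s = q * p ∧ K + a * Y = q * δ := by
  have h2 : n ∣ δ * I - p * K := by
    have e : δ * I - p * K = p * (I * σ - K) - I * (p * σ - δ) := by ring
    rw [e]; exact dvd_sub (Dvd.dvd.mul_left h1 _) (Dvd.dvd.mul_left hp _)
  obtain ⟨a, ha⟩ := h2
  obtain ⟨q, hq1, hq2⟩ := par M hδ hp (I := I + a * s) (K := K + a * Y) (by
    have e : (I + a * s) * σ - (K + a * Y) = (I * σ - K) + a * (s * σ - Y) := by ring
    rw [e]; exact dvd_add h1 (Dvd.dvd.mul_left hs _)) (by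
    linear_combination ha - a * hY)
  exact ⟨a, q, ha, hq1, hq2⟩

theorem cop_s (M : MinStep n N σ p) (hδ : |δ| ≤ N - 1) (hp : n ∣ p * σ - δ) {s Y : ℤ}
    (hY : (p : ℤ) * Y = δ * s + n) (hs : n ∣ s * σ - Y) : IsCoprime s (p : ℤ) := by
  obtain ⟨a, q, -, h2, -⟩ := crd M hδ hp hY hs (I := 1) (K := σ)
    (by rw [one_mul, sub_self]; exact dvd_zero n)
  exact ⟨-a, q, by linarith⟩

theorem cop_Y (D : Data n (2 * η) (2 * ρ) N σ) (hodd : n % 2 = 1) (M : MinStep n N σ p)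
    (hδ0 : δ ≠ 0) (hδ : |δ| ≤ N - 1) (hp : n ∣ p * σ - δ) {s Y : ℤ}
    (hY : (p : ℤ) * Y = δ * s + n) (hs : n ∣ s * σ - Y) : IsCoprime Y δ := by
  rcases Int.lt_or_le N 3 with hN | hN
  · have h1 : |δ| = 1 := by
      have := abs_pos.mpr hδ0
      omega
    rcases (abs_eq (by norm_num : (0 : ℤ) ≤ 1)).mp h1 with h2 | h2
    · rw [h2]; exact isCoprime_one_right
    · rw [h2]; exact isCoprime_one_right.neg_right
  rw [Int.isCoprime_iff_gcd_eq_one]
  by_contra hne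
  obtain ⟨r, hr1, hr2⟩ := Nat.exists_prime_and_dvd hne
  have hrY : (r : ℤ) ∣ Y := (Int.natCast_dvd_natCast.mpr hr2).trans (Int.gcd_dvd_left ..)
  have hrδ : (r : ℤ) ∣ δ := (Int.natCast_dvd_natCast.mpr hr2).trans (Int.gcd_dvd_right ..)
  have hr2' : (2 : ℤ) ≤ r := by exact_mod_cast hr1.two_le
  have hcl : ∀ κ : ℤ, ∀ i : ℕ, ((i : ℤ) * σ) % n = κ → (r : ℤ) ∣ κ := by
    intro κ i hκ
    have h3 : n ∣ (i : ℤ) * σ - κ := by rw [← hκ]; exact Int.dvd_self_sub_emod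
    obtain ⟨a, q, -, -, g3⟩ := crd M hδ hp hY hs h3
    have e : κ = q * δ - a * Y := by linarith
    rw [e]; exact dvd_sub (Dvd.dvd.mul_left hrδ _) (Dvd.dvd.mul_left hrY _)
  have h1 : (r : ℤ) ∣ N := by
    rcases D.cov 1 (by omega) (by omega) with ⟨i, hi, hi'⟩ | ⟨i, hi, hi'⟩
    · have := Int.le_of_dvd one_pos (hcl 1 i hi')
      omega
    · have := hcl (N + 1 - 1) i hi'
      rwa [add_sub_cancel_right] at this
  have h2 : (r : ℤ) ∣ 2 := by
    rcases D.cov 2 (by omega) (by omega) with ⟨i, hi, hi'⟩ | ⟨i, hi, hi'⟩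
    · exact hcl 2 i hi'
    · exfalso
      have h3 := hcl (N + 1 - 2) i hi'
      have h4 := dvd_sub h1 h3
      have e : N - (N + 1 - 2) = 1 := by ring
      rw [e] at h4
      have := Int.le_of_dvd one_pos h4
      omega
  have h3 : (r : ℤ) ∣ n := by
    have e : n = p * Y - δ * s := by linarith
    rw [e]; exact dvd_sub (Dvd.dvd.mul_left hrY _) (Dvd.dvd.mul_right hrδ _)
  have h4 := Int.le_of_dvd two_pos h2
  have h5 : (r : ℤ) = 2 := by omega
  rw [h5] at h3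
  omega

/-- The congruences for the generator. -/
theorem cong (D : Data n (2 * η) (2 * ρ) N σ) (hodd : n % 2 = 1) (M : MinStep n N σ p)
    (hδ : |δ| ≤ N - 1) (hp : n ∣ p * σ - δ) {s Y : ℤ}
    (hY : (p : ℤ) * Y = δ * s + n) (hs : n ∣ s * σ - Y) {m : ℤ} (hm : n = 4 * η + m) {C : ℤ}
    (hC : C * n = η * δ + p * ρ) :
    δ ∣ (p + δ - 4 * C) * Y - (m + 4 * (η - ρ)) ∧ (p : ℤ) ∣ (p + δ - 4 * C) * s + m := by
  obtain ⟨a, q, g1, g2, g3⟩ := crd M hδ hp hY hs (I := η) (K := -ρ) (by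
    rw [sub_neg_eq_add]; exact dvd_half D hodd)
  have haC : a = C := by
    have h1 : n * a = n * C := by rw [← g1, mul_comm n C, hC]; ring
    exact mul_left_cancel₀ D.npos.ne' h1
  subst haC
  constructor
  · refine ⟨s + Y - 4 * q, ?_⟩
    linear_combination hY - 4 * g3 + hm
  · refine ⟨s + Y - 4 * q, ?_⟩
    linear_combination (-1 : ℤ) * hY - 4 * g2 - hm

end Pool.Agent.Lib.MP_3a897b_coR
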