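import Pool.Agent.Lib.MP_3a897b_co.Three
import Pool.Agent.Lib.MP_3a897b_coR.Fin

/-!
# Cyclic groups of order at most `2 h ^ 2 + 2 h + 1`
-/

namespace Pool.Agent.Lib.MP_3a897b_coR

open Pool.Agent.Lib.MP_3a897b_co

universe u

variable {G : Type u} [AddCommGroup G]

theorem all_iff [Finite G] {h : ℕ} (hh : 1 ≤ h) :
    phiPM G h = 2 ↔ IsAddCyclic G ∧ 2 ≤ Nat.card G ∧
      (Nat.card G ≤ 2 * h + 1 ∨
        (Odd (Nat.card G) ∧ Odd h ∧ Nat.card G ≤ 3 * h) ∨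
        (Odd (Nat.card G) ∧ ∃ k : ℕ, h = 2 * k ∧ RepZ k ((Nat.card G : ℤ) - 2 * h))) := by
  constructor
  · intro H
    obtain ⟨h1, h2, h3⟩ := necessary hh H
    refine ⟨h1, h2, ?_⟩
    rcases Nat.lt_or_ge (2 * h + 1) (Nat.card G) with h4 | h4
    · right
      rcases Nat.even_or_odd h with h5 | h5
      · right
        obtain ⟨k, hk⟩ := h5
        have hk' : h = 2 * k := by omega
        obtain ⟨-, h6, h7⟩ := (even_iff hh hk' (by omega)).mp H
        exact ⟨h6, k, hk', h7⟩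
      · left
        rcases h3 with h3 | ⟨h3, ⟨-, h6⟩ | ⟨h6, -⟩⟩
        · omega
        · exact ⟨h3, h5, h6⟩
        · exact absurd h5 (Nat.not_odd_iff_even.mpr h6)
    · exact Or.inl h4
  · rintro ⟨h1, h2, h3⟩
    rcases Nat.lt_or_ge (2 * h + 1) (Nat.card G) with h4 | h4
    · rcases h3 with h3 | ⟨h3, h5, h6⟩ | ⟨h3, k, hk, h6⟩
      · omega
      · exact sufficient hh h1 h2 (Or.inr ⟨h3, Or.inl ⟨h5, h6⟩⟩)
      · exact (even_iff hh hk (by omega)).mpr ⟨h1, h3, h6⟩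
    · exact sufficient hh h1 h2 (Or.inl h4)

theorem exists_three [Finite G] {h : ℕ} (hh : 1 ≤ h) (hcyc : IsAddCyclic G)
    (h3 : 2 * h + 2 ≤ Nat.card G) (h4 : Nat.card G ≤ 2 * h ^ 2 + 2 * h + 1) :
    ∃ A : Finset G, A.card = 3 ∧ signedSumset h A = Set.univ := by
  classical
  obtain ⟨g, hg⟩ := hcyc.exists_zsmul_surjective
  have hg' : ∀ z : G, z ∈ AddSubgroup.zmultiples g := fun z => by
    obtain ⟨k, hk⟩ := hg z
    exact AddSubgroup.mem_zmultiples_iff.mpr ⟨k, hk⟩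
  have hnd : ∀ m : ℤ, 0 < m → m < (Nat.card G : ℤ) → ¬ (Nat.card G : ℤ) ∣ m :=
    fun m h0 h1 h => absurd (Int.le_of_dvd h0 h) (by omega)
  have hne : ∀ u v : ℤ, u < v → v - u < (Nat.card G : ℤ) → u • g ≠ v • g := fun u v h1 h2 => by
    apply ne_of_not_dvd hg'
    intro h3
    apply hnd (v - u) (by omega) h2
    have e : v - u = -(u - v) := by ring
    rw [e]
    exact (dvd_neg).mpr h3
  have h4' : (Nat.card G : ℤ) ≤ 2 * (h : ℤ) ^ 2 + 2 * h + 1 := by exact_mod_cast h4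
  have n1 := hne 0 h (by omega) (by omega)
  have n2 := hne 0 (h + 1) (by omega) (by omega)
  have n3 := hne h (h + 1) (by omega) (by omega)
  refine ⟨_, Finset.card_eq_three.2 ⟨_, _, _, n1, n2, n3, rfl⟩, triple_spans hg' n1 n2 n3 ?_⟩
  intro k hk0 hk1
  exact rep_zero (by omega) h4' hk0 hk1

theorem three_iff [Finite G] {h : ℕ} (hh : 1 ≤ h) (hcyc : IsAddCyclic G) (hn : 2 ≤ Nat.card G)
    (hr : Nat.card G ≤ 2 * h ^ 2 + 2 * h + 1 ∨
      (Odd h ∧ Odd (Nat.card G) ∧ Nat.card G ≤ 2 * h ^ 2 + 3 * h)) :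
    phiPM G h = 3 ↔ ¬ (Nat.card G ≤ 2 * h + 1 ∨
        (Odd (Nat.card G) ∧ Odd h ∧ Nat.card G ≤ 3 * h) ∨
        (Odd (Nat.card G) ∧ ∃ k : ℕ, h = 2 * k ∧ RepZ k ((Nat.card G : ℤ) - 2 * h))) := by
  constructor
  · intro H hcon
    have := (all_iff hh).mpr ⟨hcyc, hn, hcon⟩
    omega
  · intro hcon
    have h2 : phiPM G h ≠ 2 := fun H => hcon ((all_iff hh).mp H).2.2
    have h3 : 2 * h + 2 ≤ Nat.card G := by
      by_contra h4
      exact hcon (Or.inl (by omega))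
    apply phi_eq_three hh hn h2
    rcases hr with hr | ⟨ho, hno, hr⟩
    · exact exists_three hh hcyc h3 hr
    · have h5 : 3 * h < Nat.card G := by
        by_contra h4
        exact hcon (Or.inr (Or.inl ⟨hno, ho, by omega⟩))
      have h6 := three hh hcyc (Or.inl ⟨ho, hno, h5, hr⟩)
      have h7 : (phiPM G h) ∈ {m | ∃ A : Finset G, A.card = m ∧ signedSumset h A = Set.univ} := by
        apply Nat.sInf_mem
        by_contra hemp
        rw [Set.not_nonempty_iff_eq_empty] at hemp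
        unfold phiPM at h6
        rw [hemp, Nat.sInf_empty] at h6
        omega
      rw [h6] at h7
      exact h7

end Pool.Agent.Lib.MP_3a897b_coR
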